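import Pool.Agent.H923R2.FP.Stubs

/-! Gadget in `C([0,1])` (task GADC of helper923's project on MP_118406_an). -/

set_option autoImplicit false

open scoped ComplexConjugate
open MeasureTheory Complex

noncomputable section

namespace Pool.Agent.H923R2.FP.T_GADC

open Pool.Agent.H923R2.FP

/-- integral over the unit interval as an interval integral -/
theorem int_unit {E : Type} [NormedAddCommGroup E] [NormedSpace ℝ E] (F : ℝ → E) :
    ∫ x : unitInterval, F x = ∫ x in (0 : ℝ)..1, F x := by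
  have h := MeasureTheory.integral_subtype_comap (μ := (volume : Measure ℝ))
    (measurableSet_Icc : MeasurableSet (Set.Icc (0 : ℝ) 1)) F
  rw [intervalIntegral.integral_of_le zero_le_one, ← integral_Icc_eq_integral_Ioc, ← h]
  rfl

/-- a 1-periodic function multiplied by a constant `≠ 1` under a shift has mean zero -/
theorem shift_zero (H : ℝ → ℂ) (hp : Function.Periodic H 1) (s : ℝ) (c : ℂ) (hc : c ≠ 1)
    (hs : ∀ x, H (x + s) = c * H x) : ∫ x in (0 : ℝ)..1, H x = 0 := by
  have h1 : ∫ x in (0 : ℝ)..1, H (x + s) = ∫ x in (0 : ℝ)..1, H x := by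
    rw [intervalIntegral.integral_comp_add_right]
    have := hp.intervalIntegral_add_eq (0 + s) 0
    rw [zero_add] at *
    rw [add_comm 1 s]
    simpa using this
  have h2 : ∫ x in (0 : ℝ)..1, H (x + s) = c * ∫ x in (0 : ℝ)..1, H x := by
    simp_rw [hs]
    exact intervalIntegral.integral_const_mul _ _
  rw [h1] at h2
  have h3 : (1 - c) * ∫ x in (0 : ℝ)..1, H x = 0 := by
    linear_combination h2
  rcases mul_eq_zero.1 h3 with h | h
  · exact absurd (sub_eq_zero.1 h).symm hc
  · exact h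

/-- triangle wave with period 1 -/
def TT (y : ℝ) : ℝ := 2 * ‖(y : UnitAddCircle)‖

theorem TT_cont : Continuous TT := by
  unfold TT
  exact continuous_const.mul (continuous_norm.comp (AddCircle.continuous_mk' 1))

theorem TT_mem (y : ℝ) : TT y ∈ Set.Icc (0 : ℝ) 1 := by
  unfold TT
  have h := AddCircle.norm_le_half_period (1 : ℝ) (x := (y : UnitAddCircle)) one_ne_zero
  rw [abs_one] at h
  constructor
  · positivity
  · linarith

theorem TT_per : Function.Periodic TT 1 := by
  intro y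
  unfold TT
  have : ((y + 1 : ℝ) : UnitAddCircle) = (y : UnitAddCircle) := AddCircle.coe_add_period 1 y
  rw [this]

theorem TT_left {y : ℝ} (h0 : 0 ≤ y) (h1 : y ≤ 1 / 2) : TT y = 2 * y := by
  unfold TT
  have h := (AddCircle.norm_coe_eq_abs_iff (x := y) (p := (1 : ℝ)) one_ne_zero).2 (by
    rw [abs_of_nonneg h0, abs_one]; exact h1)
  rw [show ‖(y : UnitAddCircle)‖ = |y| from h, abs_of_nonneg h0]

theorem TT_right {y : ℝ} (h0 : 1 / 2 ≤ y) (h1 : y ≤ 1) : TT y = 2 - 2 * y := by
  have h2 : TT y = TT (y - 1) := by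
    have := TT_per (y - 1)
    rw [sub_add_cancel] at this
    exact this
  rw [h2]
  unfold TT
  have h := (AddCircle.norm_coe_eq_abs_iff (x := y - 1) (p := (1 : ℝ)) one_ne_zero).2 (by
    rw [abs_of_nonpos (by linarith), abs_one]; linarith)
  rw [show ‖((y - 1 : ℝ) : UnitAddCircle)‖ = |y - 1| from h, abs_of_nonpos (by linarith)]
  ring

/-- the triangle wave preserves Lebesgue measure -/
theorem TT_int (F : ℝ → ℂ) (hF : Continuous fun y => F (TT y)) :
    ∫ y in (0 : ℝ)..1, F (TT y) = ∫ y in (0 : ℝ)..1, F y := by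
  have h1 : ∫ y in (0 : ℝ)..(1 / 2), F (TT y) = ∫ y in (0 : ℝ)..(1 / 2), F (2 * y) := by
    apply intervalIntegral.integral_congr
    intro y hy
    rw [Set.uIcc_of_le (by norm_num)] at hy
    show F (TT y) = F (2 * y)
    rw [TT_left hy.1 hy.2]
  have h2 : ∫ y in (1 / 2 : ℝ)..1, F (TT y) = ∫ y in (1 / 2 : ℝ)..1, F (2 - 2 * y) := by
    apply intervalIntegral.integral_congr
    intro y hy
    rw [Set.uIcc_of_le (by norm_num)] at hy
    show F (TT y) = F (2 - 2 * y)
    rw [TT_right hy.1 hy.2]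
  rw [← intervalIntegral.integral_add_adjacent_intervals (b := 1 / 2)
    (hF.intervalIntegrable _ _) (hF.intervalIntegrable _ _), h1, h2,
    intervalIntegral.integral_comp_mul_left (fun y => F y) two_ne_zero,
    intervalIntegral.integral_comp_sub_mul (fun y => F y) two_ne_zero]
  norm_num
  rw [← two_mul, ← mul_assoc]
  norm_num

/-- rescaling a 1-periodic function -/
theorem scale_int (G : ℝ → ℂ) (hp : Function.Periodic G 1) (hG : Continuous G) (q : ℕ)
    (hq : 0 < q) : ∫ x in (0 : ℝ)..1, G (q * x) = ∫ y in (0 : ℝ)..1, G y := by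
  have hq' : (q : ℝ) ≠ 0 := by exact_mod_cast hq.ne'
  have hqC : (q : ℂ) ≠ 0 := by exact_mod_cast hq.ne'
  rw [intervalIntegral.integral_comp_mul_left (fun y => G y) hq']
  have h := hp.intervalIntegral_add_zsmul_eq q 0 (fun a b => hG.intervalIntegrable a b)
  simp only [zero_add, zsmul_eq_mul, Int.cast_natCast, mul_one] at h
  rw [mul_zero, mul_one, h, Complex.real_smul]
  push_cast
  field_simp

/-- Chebyshev polynomials of real functions -/
theorem Uc_cx (ψ : C(unitInterval, ℝ)) (x : unitInterval) :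
    ∀ m : ℕ, (Uc (cx ψ) m) x = ((Uc (ψ x) m : ℝ) : ℂ)
  | 0 => by simp [Uc]
  | 1 => by simp [Uc, cx]
  | m + 2 => by
    have h1 := Uc_cx ψ x (m + 1)
    have h2 := Uc_cx ψ x m
    simp only [Uc, ContinuousMap.sub_apply, ContinuousMap.mul_apply, h1, h2]
    push_cast
    rfl

theorem Uc_cont (m : ℕ) : Continuous fun x : ℝ => Uc x m := by
  induction m using Nat.strong_induction_on with
  | _ m ih =>
    match m with
    | 0 => simpa [Uc] using continuous_const
    | 1 =>
      show Continuous fun x : ℝ => x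
      exact continuous_id
    | m + 2 =>
      simp only [Uc]
      exact (continuous_id.mul (ih (m + 1) (by omega))).sub (ih m (by omega))

/-- the Haar unitary -/
def uC : C(unitInterval, ℂ) :=
  ⟨fun x => Complex.exp (2 * Real.pi * I * (x : ℝ)), by fun_prop⟩

theorem uC_mem : uC ∈ unitary C(unitInterval, ℂ) := by
  have h : ∀ x : unitInterval, conj (uC x) * uC x = 1 := by
    intro x
    show conj (Complex.exp (2 * Real.pi * I * (x : ℝ))) * Complex.exp (2 * Real.pi * I * (x : ℝ)) = 1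
    rw [← Complex.exp_conj, ← Complex.exp_add]
    have h2 : conj (2 : ℂ) = 2 := map_ofNat _ 2
    simp [h2]
  rw [Unitary.mem_iff]
  constructor
  · ext x
    exact h x
  · ext x
    have := h x
    rw [mul_comm] at this
    exact this

def uU : unitary C(unitInterval, ℂ) := ⟨uC, uC_mem⟩

theorem uU_zpow (n : ℤ) (x : unitInterval) :
    ((uU ^ n : unitary C(unitInterval, ℂ)) : C(unitInterval, ℂ)) x =
      Complex.exp (2 * Real.pi * I * n * (x : ℝ)) := by
  have hnat : ∀ k : ℕ, ((uU ^ k : unitary C(unitInterval, ℂ)) : C(unitInterval, ℂ)) x =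
      Complex.exp (2 * Real.pi * I * k * (x : ℝ)) := by
    intro k
    rw [SubmonoidClass.coe_pow, ContinuousMap.pow_apply]
    show (Complex.exp (2 * Real.pi * I * (x : ℝ))) ^ k = _
    rw [← Complex.exp_nat_mul]
    congr 1
    ring
  obtain ⟨k, rfl | rfl⟩ := n.eq_nat_or_neg
  · rw [zpow_natCast, hnat]
    simp
  · rw [zpow_neg, zpow_natCast, ← Unitary.star_eq_inv, Unitary.coe_star]
    show conj (((uU ^ k : unitary C(unitInterval, ℂ)) : C(unitInterval, ℂ)) x) = _
    rw [hnat, ← Complex.exp_conj]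
    have h2 : conj (2 : ℂ) = 2 := map_ofNat _ 2
    congr 1
    simp [h2]

theorem t_GADC : S_GADC := by
  intro φ hφ2 hφ p
  set q : ℕ := max p 1 with hq
  have hq1 : 0 < q := lt_of_lt_of_le one_pos (le_max_right p 1)
  have hqR : (q : ℝ) ≠ 0 := by exact_mod_cast hq1.ne'
  have hqC : (q : ℂ) ≠ 0 := by exact_mod_cast hq1.ne'
  -- the function of a real variable
  set ψ0 : ℝ → ℝ := fun y => φ ⟨TT y, TT_mem y⟩ with hψ0
  have hψ0c : Continuous ψ0 := φ.continuous.comp (Continuous.subtype_mk TT_cont _)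
  have hψ0p : Function.Periodic ψ0 1 := by
    intro y
    have : TT (y + 1) = TT y := TT_per y
    simp only [hψ0]
    congr 1
    exact Subtype.ext this
  set ψ : C(unitInterval, ℝ) := ⟨fun x => ψ0 (q * (x : ℝ)),
    hψ0c.comp (continuous_const.mul continuous_subtype_val)⟩ with hψ
  have hG : ∀ m : ℕ, Continuous fun y : ℝ => ((Uc (ψ0 y) m : ℝ) : ℂ) := fun m =>
    Complex.continuous_ofReal.comp ((Uc_cont m).comp hψ0c)
  have hGp : ∀ m : ℕ, Function.Periodic (fun y : ℝ => ((Uc (ψ0 y) m : ℝ) : ℂ)) 1 := by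
    intro m y
    have : ψ0 (y + 1) = ψ0 y := hψ0p y
    show ((Uc (ψ0 (y + 1)) m : ℝ) : ℂ) = ((Uc (ψ0 y) m : ℝ) : ℂ)
    rw [this]
  -- the shift argument
  have hshift : ∀ (r : ℕ), 0 < r → ∀ (G : ℝ → ℂ), Function.Periodic G 1 → ∀ n : ℤ, n ≠ 0 →
      n.natAbs < r → ∫ x in (0 : ℝ)..1, G (r * x) * Complex.exp (2 * Real.pi * I * n * (x : ℝ)) = 0 := by
    intro r hr G hGper n hn hnr
    have hrR : (r : ℝ) ≠ 0 := by exact_mod_cast hr.ne'
    have hrC : (r : ℂ) ≠ 0 := by exact_mod_cast hr.ne'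
    apply shift_zero _ _ (1 / r : ℝ) (Complex.exp (2 * Real.pi * I * n * (1 / r : ℝ)))
    · intro hexp
      rw [Complex.exp_eq_one_iff] at hexp
      obtain ⟨k, hk⟩ := hexp
      have h2 : (n : ℂ) = k * r := by
        have hpi : (2 * Real.pi * I : ℂ) ≠ 0 := by
          simp [Real.pi_ne_zero]
        push_cast at hk
        field_simp at hk
        have : (2 * Real.pi * I : ℂ) * n = (2 * Real.pi * I : ℂ) * (k * r) := by
          linear_combination (2 * Real.pi * I : ℂ) * hk
        exact mul_left_cancel₀ hpi this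
      have h3 : n = k * r := by exact_mod_cast h2
      have hk0 : k ≠ 0 := by
        rintro rfl
        apply hn
        rw [h3, zero_mul]
      have : r ≤ n.natAbs := by
        rw [h3, Int.natAbs_mul, Int.natAbs_natCast]
        have := Int.natAbs_pos.2 hk0
        nlinarith
      omega
    · intro x
      show G (r * (x + (1 / r : ℝ))) * Complex.exp (2 * Real.pi * I * n * ((x + (1 / r : ℝ) : ℝ) : ℂ)) = _
      have h4 : (r : ℝ) * (x + 1 / r) = r * x + 1 := by field_simp
      rw [h4, hGper]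
      push_cast
      rw [mul_add, Complex.exp_add]
      ring
    · intro x
      show G (r * (x + 1)) * Complex.exp (2 * Real.pi * I * n * ((x + 1 : ℝ) : ℂ)) = _
      have h5 : G (r * (x + 1)) = G (r * x) := by
        have := hGper.nat_mul r (r * x)
        rw [mul_one] at this
        rw [mul_add, mul_one]
        exact this
      have h6 : Complex.exp (2 * Real.pi * I * n * ((x + 1 : ℝ) : ℂ)) =
          Complex.exp (2 * Real.pi * I * n * (x : ℂ)) := by
        push_cast
        rw [mul_add, Complex.exp_add]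
        have : Complex.exp (2 * Real.pi * I * n * 1) = 1 := by
          rw [Complex.exp_eq_one_iff]
          exact ⟨n, by ring⟩
        rw [this, mul_one]
      rw [h5, h6]
  refine ⟨uU, cx ψ, ?_, ?_, ?_, ?_, ?_⟩
  · ext x
    show conj ((ψ x : ℝ) : ℂ) = ((ψ x : ℝ) : ℂ)
    exact Complex.conj_ofReal _
  · rw [ContinuousMap.norm_le _ (by norm_num)]
    intro x
    show ‖((ψ x : ℝ) : ℂ)‖ ≤ 2
    rw [Complex.norm_real]
    exact hφ2 _
  · intro n hn
    unfold leb
    simp_rw [uU_zpow]
    rw [int_unit (fun x : ℝ => Complex.exp (2 * Real.pi * I * n * (x : ℝ)))]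
    have := hshift (n.natAbs + 1) (by omega) (fun _ => 1) (fun _ => rfl) n hn (by omega)
    simpa using this
  · intro m hm
    unfold leb
    simp_rw [Uc_cx]
    have e1 : ∫ x : unitInterval, ((Uc (ψ x) m : ℝ) : ℂ) =
        ∫ x : unitInterval, (fun x : ℝ => ((Uc (ψ0 (q * x)) m : ℝ) : ℂ)) (x : ℝ) := rfl
    rw [e1, int_unit (fun x : ℝ => ((Uc (ψ0 (q * x)) m : ℝ) : ℂ)),
      scale_int (fun y => ((Uc (ψ0 y) m : ℝ) : ℂ)) (hGp m) (hG m) q hq1]
    set F : ℝ → ℂ := fun z => ((Uc (φ (Set.projIcc (0 : ℝ) 1 zero_le_one z)) m : ℝ) : ℂ) with hF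
    have e2 : (fun y : ℝ => ((Uc (ψ0 y) m : ℝ) : ℂ)) = fun y => F (TT y) := by
      funext y
      simp only [hF, hψ0]
      rw [Set.projIcc_of_mem zero_le_one (TT_mem y)]
    have hGm := hG m
    rw [e2] at hGm
    rw [show (∫ y in (0 : ℝ)..1, ((Uc (ψ0 y) m : ℝ) : ℂ)) = ∫ y in (0 : ℝ)..1, F (TT y) from by
      rw [← e2], TT_int F hGm, ← int_unit F]
    have e3 : ∫ x : unitInterval, F x = ∫ x : unitInterval, ((Uc (φ x) m : ℝ) : ℂ) := by
      congr 1
      funext x
      simp only [hF]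
      rw [Set.projIcc_val]
    have e4 : ∫ x : unitInterval, ((Uc (φ x) m : ℝ) : ℂ) =
        ((∫ x : unitInterval, Uc (φ x) m : ℝ) : ℂ) := integral_ofReal
    rw [e3, e4, hφ m hm]
    simp
  · intro n hn hnp m
    unfold leb
    have : ∀ x : unitInterval, (Uc (cx ψ) m * ((uU ^ n : unitary C(unitInterval, ℂ)) :
        C(unitInterval, ℂ))) x = ((Uc (ψ0 (q * (x : ℝ))) m : ℝ) : ℂ) *
          Complex.exp (2 * Real.pi * I * n * (x : ℝ)) := by
      intro x
      rw [ContinuousMap.mul_apply, Uc_cx, uU_zpow]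
      rfl
    simp_rw [this]
    rw [int_unit (fun x : ℝ => ((Uc (ψ0 (q * x)) m : ℝ) : ℂ) *
      Complex.exp (2 * Real.pi * I * n * (x : ℝ)))]
    exact hshift q hq1 _ (hGp m) n hn (lt_of_lt_of_le hnp (le_max_left p 1))

end Pool.Agent.H923R2.FP.T_GADC
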