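import Mathlib
import Pool.Agent.H922R2.OPC.Stubs

/-!
POS: no positive values (helper254).
-/

set_option autoImplicit false

open MvPolynomial

namespace Pool.Agent.H254R2.OPCPOS

open Pool.Agent.H922R2.OPC

variable {k : Type} [Field k]

theorem alg_coeff (a : k) (i : ℤ) (hi : 0 < i) : (algebraMap k (L k) a).coeff i = 0 := by
  rw [HahnSeries.algebraMap_apply', PowerSeries.algebraMap_apply, HahnSeries.ofPowerSeries_C,
    HahnSeries.C_apply]
  exact HahnSeries.coeff_single_of_ne (by omega)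

theorem mul_tp (n : ℕ) (x : L k) (i : ℤ) : (x * tp (-(n : ℤ))).coeff i = x.coeff (i + n) := by
  unfold tp
  have h := HahnSeries.coeff_mul_single_add (r := (1 : Polynomial k)) (x := x)
    (a := i + n) (b := -(n : ℤ))
  rw [mul_one] at h
  have e : i + (n : ℤ) + -(n : ℤ) = i := by ring
  rw [e] at h
  exact h

theorem mul_lam (x : L k) (i : ℤ) : (x * lam).coeff i = x.coeff i * Polynomial.X := by
  unfold lam
  have h := HahnSeries.coeff_mul_single_add (r := (Polynomial.X : Polynomial k)) (x := x)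
    (a := i) (b := 0)
  rw [add_zero] at h
  exact h

theorem pos_coeff (n : ℕ) (g : B k) : ∀ i : ℤ, 0 < i →
    (aeval (![tp (-(n : ℤ)), lam] : Fin 2 → L k) g).coeff i = 0 := by
  induction g using MvPolynomial.induction_on with
  | C a =>
    intro i hi
    rw [MvPolynomial.aeval_C]
    exact alg_coeff a i hi
  | add p q hp hq =>
    intro i hi
    rw [map_add, HahnSeries.coeff_add, hp i hi, hq i hi, add_zero]
  | mul_X p j hp =>
    intro i hi
    rw [map_mul, aeval_X]
    fin_cases j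
    · show (aeval (![tp (-(n : ℤ)), lam] : Fin 2 → L k) p * tp (-(n : ℤ))).coeff i = 0
      rw [mul_tp]
      exact hp _ (by omega)
    · show (aeval (![tp (-(n : ℤ)), lam] : Fin 2 → L k) p * lam).coeff i = 0
      rw [mul_lam, hp i hi, zero_mul]

theorem rot_eq_zero {c : k} (hc : c ≠ 0) {h : L k} (h0 : rot c h = 0) : h = 0 := by
  ext i : 2
  have h1 : (rot c h).coeff i = (0 : L k).coeff i := by rw [h0]
  have h2 : (rot c h).coeff i = Polynomial.C (c ^ i) * h.coeff i := rfl
  rw [h2, HahnSeries.coeff_zero, mul_eq_zero] at h1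
  rcases h1 with h1 | h1
  · rw [Polynomial.C_eq_zero] at h1
    exact absurd h1 (zpow_ne_zero i hc)
  · rw [h1, HahnSeries.coeff_zero]

theorem rot_ge {c : k} {w : ℤ} {h : L k} (h0 : Ge w h) : Ge w (rot c h) := by
  intro i hi
  have h2 : (rot c h).coeff i = Polynomial.C (c ^ i) * h.coeff i := rfl
  rw [h2, h0 i hi, mul_zero]

theorem prod_ge (hMUL : S_MUL) (m : ℕ) (s : ℕ → L k) (hs : ∀ i, Ge 1 (s i)) :
    Ge (m : ℤ) (∏ i ∈ Finset.range m, s i) := by
  induction m with
  | zero =>
    intro i hi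
    rw [Finset.prod_range_zero]
    have : (1 : L k) = HahnSeries.single 0 1 := rfl
    rw [this]
    exact HahnSeries.coeff_single_of_ne (by push_cast at hi; omega)
  | succ m ih =>
    rw [Finset.prod_range_succ]
    have h1 := (hMUL (Polynomial k) (m : ℤ) 1 _ _ ih (hs m)).1
    push_cast
    exact h1

end Pool.Agent.H254R2.OPCPOS

namespace Pool.Agent.H254R2.OPCPOS

open Pool.Agent.H922R2.OPC

theorem pos (k : Type) [Field k] [IsAlgClosed k] [CharZero k] (hMON : S_MON k) : S_POS k := by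
  intro hMUL hROT hEVF hINJ hCHR n f φ ζ hOP h hge
  have hn : 0 < n := hOP.1
  have hζ : ζ ≠ 0 := hOP.2.1.ne_zero hn.ne'
  obtain ⟨g, hg⟩ := hCHR hROT hEVF hMON n f φ ζ hOP h 0
  have h1 : (∏ i ∈ Finset.range n, (Polynomial.X - Polynomial.C (rot (ζ ^ i) (ev n φ h)))).coeff 0
      = ∏ i ∈ Finset.range n, (-(rot (ζ ^ i) (ev n φ h))) := by
    rw [Polynomial.coeff_zero_eq_eval_zero, Polynomial.eval_prod]
    refine Finset.prod_congr rfl (fun i _ => ?_)
    rw [Polynomial.eval_sub, Polynomial.eval_X, Polynomial.eval_C, zero_sub]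
  rw [h1] at hg
  have h2 : ev n φ (aeval ![X 0, f] g) = aeval (![tp (-(n : ℤ)), lam] : Fin 2 → L k) g := by
    have h3 : ((ev n φ).comp (aeval ![X 0, f] : B k →ₐ[k] B k))
        = (aeval (![tp (-(n : ℤ)), lam] : Fin 2 → L k) : B k →ₐ[k] L k) := by
      apply MvPolynomial.algHom_ext
      intro j
      rw [AlgHom.comp_apply, aeval_X, aeval_X]
      fin_cases j
      · show ev n φ (X 0) = tp (-(n : ℤ))
        unfold ev
        rw [aeval_X]
        rfl
      · show ev n φ f = lam
        exact hEVF n f φ ζ hOP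
    have h4 := congrArg (fun z : B k →ₐ[k] L k => z g) h3
    exact h4
  have hneg : ∀ i : ℕ, Ge 1 (-(rot (ζ ^ i) (ev n φ h))) := by
    intro i j hj
    rw [HahnSeries.coeff_neg, rot_ge hge j hj, neg_zero]
  have hprod := prod_ge hMUL n (fun i => -(rot (ζ ^ i) (ev n φ h))) hneg
  have hzero : ∏ i ∈ Finset.range n, (-(rot (ζ ^ i) (ev n φ h))) = 0 := by
    ext j : 2
    rw [HahnSeries.coeff_zero]
    by_cases hj : j < (n : ℤ)
    · exact hprod j hj
    · rw [hg, h2]
      exact pos_coeff n g j (by omega)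
  rw [Finset.prod_eq_zero_iff] at hzero
  obtain ⟨i, _, hi⟩ := hzero
  rw [neg_eq_zero] at hi
  have h5 : ev n φ h = 0 := rot_eq_zero (pow_ne_zero i hζ) hi
  exact hINJ hEVF hMON n f φ ζ hOP (by rw [h5, map_zero])

end Pool.Agent.H254R2.OPCPOS
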