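import Mathlib
import Pool.Agent.H922R2.OPC.Stubs

/-!
SPP: specialised elements have no positive values (helper254).
-/

set_option autoImplicit false

open MvPolynomial

namespace Pool.Agent.H254R2.OPCSPP

open Pool.Agent.H922R2.OPC

variable {k : Type} [Field k]

theorem alg_coeff (a : k) (i : ℤ) (hi : 0 < i) : (algebraMap k (L k) a).coeff i = 0 := by
  rw [HahnSeries.algebraMap_apply', PowerSeries.algebraMap_apply, HahnSeries.ofPowerSeries_C,
    HahnSeries.C_apply]
  exact HahnSeries.coeff_single_of_ne (by omega)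

theorem mul_tp (n : ℕ) (x : L k) (i : ℤ) : (x * tp (-(n : ℤ))).coeff i = x.coeff (i + n) := by
  unfold tp
  have h := HahnSeries.coeff_mul_single_add (r := (1 : Polynomial k)) (x := x)
    (a := i + n) (b := -(n : ℤ))
  rw [mul_one] at h
  have e : i + (n : ℤ) + -(n : ℤ) = i := by ring
  rw [e] at h
  exact h

theorem mul_lam (x : L k) (i : ℤ) : (x * lam).coeff i = x.coeff i * Polynomial.X := by
  unfold lam
  have h := HahnSeries.coeff_mul_single_add (r := (Polynomial.X : Polynomial k)) (x := x)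
    (a := i) (b := 0)
  rw [add_zero] at h
  exact h

theorem pos_coeff (n : ℕ) (g : B k) : ∀ i : ℤ, 0 < i →
    (aeval (![tp (-(n : ℤ)), lam] : Fin 2 → L k) g).coeff i = 0 := by
  induction g using MvPolynomial.induction_on with
  | C a =>
    intro i hi
    rw [MvPolynomial.aeval_C]
    exact alg_coeff a i hi
  | add p q hp hq =>
    intro i hi
    rw [map_add, HahnSeries.coeff_add, hp i hi, hq i hi, add_zero]
  | mul_X p j hp =>
    intro i hi
    rw [map_mul, aeval_X]
    fin_cases j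
    · show (aeval (![tp (-(n : ℤ)), lam] : Fin 2 → L k) p * tp (-(n : ℤ))).coeff i = 0
      rw [mul_tp]
      exact hp _ (by omega)
    · show (aeval (![tp (-(n : ℤ)), lam] : Fin 2 → L k) p * lam).coeff i = 0
      rw [mul_lam, hp i hi, zero_mul]

theorem sp_coeff (μ : k) (h : L k) (i : ℤ) :
    (sp μ h).coeff i = Polynomial.eval μ (h.coeff i) := rfl

theorem sp_rot_coeff (μ c : k) (h : L k) (i : ℤ) :
    (sp μ (rot c h)).coeff i = c ^ i * (sp μ h).coeff i := by
  rw [sp_coeff, sp_coeff]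
  have h2 : (rot c h).coeff i = Polynomial.C (c ^ i) * h.coeff i := rfl
  rw [h2, Polynomial.eval_mul, Polynomial.eval_C]

theorem prod_ge (hMUL : S_MUL) (m : ℕ) (s : ℕ → LaurentSeries k) (hs : ∀ i, Ge 1 (s i)) :
    Ge (m : ℤ) (∏ i ∈ Finset.range m, s i) := by
  induction m with
  | zero =>
    intro i hi
    rw [Finset.prod_range_zero]
    have : (1 : LaurentSeries k) = HahnSeries.single 0 1 := rfl
    rw [this]
    exact HahnSeries.coeff_single_of_ne (by push_cast at hi; omega)
  | succ m ih =>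
    rw [Finset.prod_range_succ]
    have h1 := (hMUL k (m : ℤ) 1 _ _ ih (hs m)).1
    push_cast
    exact h1

theorem spp (k : Type) [Field k] [IsAlgClosed k] [CharZero k] (hMON : S_MON k) : S_SPP k := by
  intro hMUL hSPR hROT hEVF _ hCHR n f φ ζ hOP μ h hge
  have hn : 0 < n := hOP.1
  have hζ : ζ ≠ 0 := hOP.2.1.ne_zero hn.ne'
  obtain ⟨R, hR⟩ := hSPR μ
  obtain ⟨g, hg⟩ := hCHR hROT hEVF hMON n f φ ζ hOP h 0
  have h1 : (∏ i ∈ Finset.range n, (Polynomial.X - Polynomial.C (rot (ζ ^ i) (ev n φ h)))).coeff 0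
      = ∏ i ∈ Finset.range n, (-(rot (ζ ^ i) (ev n φ h))) := by
    rw [Polynomial.coeff_zero_eq_eval_zero, Polynomial.eval_prod]
    refine Finset.prod_congr rfl (fun i _ => ?_)
    rw [Polynomial.eval_sub, Polynomial.eval_X, Polynomial.eval_C, zero_sub]
  rw [h1] at hg
  have h2 : ev n φ (aeval ![X 0, f] g) = aeval (![tp (-(n : ℤ)), lam] : Fin 2 → L k) g := by
    have h3 : ((ev n φ).comp (aeval ![X 0, f] : B k →ₐ[k] B k))
        = (aeval (![tp (-(n : ℤ)), lam] : Fin 2 → L k) : B k →ₐ[k] L k) := by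
      apply MvPolynomial.algHom_ext
      intro j
      rw [AlgHom.comp_apply, aeval_X, aeval_X]
      fin_cases j
      · show ev n φ (X 0) = tp (-(n : ℤ))
        unfold ev
        rw [aeval_X]
        rfl
      · show ev n φ f = lam
        exact hEVF n f φ ζ hOP
    have h4 := congrArg (fun z : B k →ₐ[k] L k => z g) h3
    exact h4
  have hgR := congrArg R hg
  rw [map_prod] at hgR
  have hneg : ∀ i : ℕ, Ge 1 (R (-(rot (ζ ^ i) (ev n φ h)))) := by
    intro i j hj
    rw [map_neg, hR, HahnSeries.coeff_neg, sp_rot_coeff, hge j hj, mul_zero, neg_zero]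
  have hprod := prod_ge hMUL n (fun i => R (-(rot (ζ ^ i) (ev n φ h)))) hneg
  have hzero : ∏ i ∈ Finset.range n, R (-(rot (ζ ^ i) (ev n φ h))) = 0 := by
    ext j
    rw [HahnSeries.coeff_zero]
    by_cases hj : j < (n : ℤ)
    · exact hprod j hj
    · rw [hgR, h2, hR, sp_coeff, pos_coeff n g j (by omega), Polynomial.eval_zero]
  rw [Finset.prod_eq_zero_iff] at hzero
  obtain ⟨i, _, hi⟩ := hzero
  rw [map_neg, neg_eq_zero, hR] at hi
  ext j
  rw [HahnSeries.coeff_zero]
  have h6 := sp_rot_coeff μ (ζ ^ i) (ev n φ h) j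
  rw [hi, HahnSeries.coeff_zero] at h6
  have h7 : (ζ ^ i) ^ j ≠ 0 := zpow_ne_zero j (pow_ne_zero i hζ)
  exact (mul_eq_zero.mp h6.symm).resolve_left h7

end Pool.Agent.H254R2.OPCSPP
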